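import Pool.Agent.X308.P.Gbc

/-!
# The generalized Bloch conjecture in even dimension and products with curves

`𝒱` is a class of smooth projective geometrically irreducible varieties over the field `k` closed
under products (for example all of them), `C` the Chow groups with rational coefficients (in the
form of their formal properties, `IsChowProj`), `H` a Weil cohomology theory (`IsWeilProj`), and
`DivisorProperties H` records two known properties of divisors.

Let `Y` be a variety of dimension `2 c` all of whose cohomology is algebraic (`IsHomTate`: the
diagonal is homologically equivalent to a sum of products `α × β`); so `Y` has Hodge coniveau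
`≥ c`. The generalized Bloch conjecture predicts `A_i^hom(Y) = 0` for `i < c`, and then the diagonal
of `Y` is a sum of products `α × β` (Bloch and Srinivas, Paranjape, Laterveer), that is, the motive
of `Y` is a sum of Lefschetz motives.

Let `T` be a single curve of positive genus. `TensorCurveThrough C (c + 1) Y T` says that for some
`p = Δ_Y - ∑ α × β` the correspondence `p × (Δ_T - o × T - T × o)` of the variety `Y × T` of
dimension `2 c + 1` factors through varieties of dimension `c + 1`. Over `ℂ` this means that the
groups `A_i`, `i < c`, of the part `(Y, p) ⊗ h^1(T)` of the motive of `Y × T` are zero (Bloch and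
Srinivas, Laterveer). For `c = 1` these are the external products `a × z` in `A_0(Y × T)` of
zero-cycles of degree zero on `Y` and on `T`; if `A_i^hom(Y) = 0` for `i < c - 1`, they are the
products of `A_{c-1}^hom(Y)` and `A_0^hom(T)`.

Theorem. (1) The motive of `Y` is a sum of Lefschetz motives if and only if
`TensorCurveThrough C (c + 1) Y T`. (2) Then `A_i^hom(Y) = 0` for all `i`.
-/

set_option autoImplicit false

universe u v w

namespace Pool.Agent.Results.MP_13bc1c_ag.ProductsWithCurves

open Pool.Agent.H914 Pool.Agent.W492.BB Pool.Agent.W550.Corr Pool.Agent.TH133 Pool.Agent.X308.O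
  Pool.Agent.X308.P

/-- A variety `Y` of dimension `2 c` with algebraic cohomology satisfies the generalized Bloch
conjecture (universally: its diagonal is decomposable) if and only if its transcendental part
tensored with `h^1(T)`, for one curve `T` of positive genus, factors through varieties of dimension
`c + 1`. -/
theorem result {k : Type u} [Field k] {𝒱 : VarClass k} (C : TheoryData.{u, v, 0} 𝒱 ℚ)
    [IsChowProj C] {K : Type w} [Field K] (H : WeilTheoryData.{u, v, w} C K) [IsWeilProj H]
    (hP : DivisorProperties H) (Y T : 𝒱.Obj) (c : ℕ) (hY : Y.dim = 2 * c) (hYH : IsHomTate H Y)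
    (hT : PositiveGenus C T) :
    (dg C Y ∈ Decomposable C Y Y ↔ TensorCurveThrough C (c + 1) Y T) ∧
    (dg C Y ∈ Decomposable C Y Y → HomTrivialCyclesVanish H Y) := by
  refine ⟨tate_iff hP hY hYH hT, fun h i z hz h0 => ?_⟩
  have h1 := act_dec_zero (H := H) h hz h0
  rwa [act_dg] at h1

end Pool.Agent.Results.MP_13bc1c_ag.ProductsWithCurves
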