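import Pool.Agent.X310.RqB

/-!
# The generalized Bloch conjecture for varieties with a finite group of automorphisms

Let `C` be the category of Chow motives over `ℂ` with rational coefficients, with the functors `hodge p q` (the Hodge
groups `H^{p,q}`) and `cycles i` (the groups `A_i^hom`), and let `c ≥ 1`. `Coniveau c M` says that `H^{p,q}(M) = 0` for
`p ≠ q`, `min p q < c`, and `Bloch c M` is the generalized Bloch conjecture for the motive `M`: if `M` has Hodge coniveau
`≥ c`, then `A_i^hom(M) = 0` for `i < c`.

Let a finite group `G` act on a smooth projective variety, with the motive `X`. For a subgroup `D` of `G` let `Q D` be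
the motive of the quotient by `D` (the direct summand of `X` cut out by the mean of the elements of `D`).

* Let the family `D i` of subgroups be rich: each irreducible `ℚ`-representation of `G` has a nonzero vector fixed by
  some `D i`. If the conjecture holds for the quotients by the `D i`, then it holds for the variety. The groups
  `A_i^hom`, `i < c`, of the variety vanish if and only if those of these quotients do.
* If `G` has no irreducible representation in which only `1` has nonzero fixed vectors (so, if `G` is not a Frobenius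
  complement; for example if `G` has a noncyclic subgroup of order `ℓ²` or `ℓℓ'`, `ℓ`, `ℓ'` primes), then the conjecture for the variety
  follows from the conjecture for the quotients by the elements `g ≠ 1` of `G`.
* Let `τ ∈ G`, `τ² = 1`, and let `comms τ` be generated by the `g τ g⁻¹ τ⁻¹`. The conjecture for the variety follows
  from that for the quotients by `τ` and by `comms τ`; and from that for the quotient by `τ` alone, if
  `τ ∈ comms τ`, for example if `G` is a nonabelian simple group.
-/

set_option autoImplicit false

universe w v u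

namespace Pool.Agent.Results.MP_13bc1c_ag.QuotientsByGroups

open CategoryTheory Pool.Agent.X310.Rq

/-- The Hodge groups and the groups of homologically trivial cycles, additive functors on a category of motives. -/
structure HodgeChow (C : Type u) [Category.{v} C] [Preadditive C] where
  hodge : ℕ → ℕ → (C ⥤ ModuleCat.{w} ℚ)
  cycles : ℕ → (C ⥤ ModuleCat.{w} ℚ)
  hodge_additive : ∀ p q, (hodge p q).Additive
  cycles_additive : ∀ i, (cycles i).Additive

variable {C : Type u} [Category.{v} C] [Preadditive C]

/-- `M` has Hodge coniveau `≥ c`. -/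
def HodgeChow.Coniveau (T : HodgeChow.{w} C) (c : ℕ) (M : C) : Prop :=
  Vanish (fun s : {s : ℕ × ℕ // s.1 ≠ s.2 ∧ min s.1 s.2 < c} => T.hodge s.1.1 s.1.2) M

/-- `A_i^hom(M) = 0` for `i < c`. -/
def HodgeChow.Trivial (T : HodgeChow.{w} C) (c : ℕ) (M : C) : Prop :=
  Vanish (fun i : Fin c => T.cycles i) M

/-- The generalized Bloch conjecture for `M`. -/
def HodgeChow.Bloch (T : HodgeChow.{w} C) (c : ℕ) (M : C) : Prop := T.Coniveau c M → T.Trivial c M

theorem result [Linear ℚ C] (T : HodgeChow.{w} C) (c : ℕ) {G : Type} [Group G] [Finite G] (X : C)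
    (ρ : G →* End X) (Q : Subgroup G → C) (hQ : ∀ D, IsQuotientBy ρ D (Q D)) :
    (∀ (ι : Type) (D : ι → Subgroup G), IsRich D →
      ((∀ i, T.Bloch c (Q (D i))) → T.Bloch c X) ∧
      (T.Trivial c X ↔ ∀ i, T.Trivial c (Q (D i)))) ∧
    (¬ HasFreeRep G → (∀ g : G, g ≠ 1 → T.Bloch c (Q (Subgroup.zpowers g))) → T.Bloch c X) ∧
    (∀ τ : G, τ * τ = 1 →
      (T.Bloch c (Q (Subgroup.zpowers τ)) → T.Bloch c (Q (comms τ)) → T.Bloch c X) ∧
      (τ ∈ comms τ → T.Bloch c (Q (Subgroup.zpowers τ)) → T.Bloch c X)) := by
  have hT : IsThick (T.Trivial c) := thick_vanish _ fun i => T.cycles_additive i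
  have hC : IsThick (T.Coniveau c) := thick_vanish _ fun s => T.hodge_additive _ _
  have key : ∀ (ι : Type) (D : ι → Subgroup G), IsRich D → (∀ i, T.Bloch c (Q (D i))) → T.Bloch c X := by
    intro ι D hD h hX
    exact rich_mem D hD ρ (fun i => Q (D i)) (fun i => hQ (D i)) _ hT fun i =>
      h i (quot_mem ρ (D i) _ (hQ (D i)) _ hC hX)
  refine ⟨fun ι D hD => ⟨key ι D hD, fun hX i => quot_mem ρ (D i) _ (hQ (D i)) _ hT hX,
    fun h => rich_mem D hD ρ (fun i => Q (D i)) (fun i => hQ (D i)) _ hT h⟩, fun hG h => ?_, fun τ hτ => ⟨fun h1 h2 => ?_,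
    fun hm h => ?_⟩⟩
  · exact key _ _ (rich_of_not_free hG) fun g => h g.1 g.2
  · refine key _ _ (rich_pair hτ) ?_
    rintro (_ | _)
    exacts [h2, h1]
  · exact key _ _ (rich_single hτ hm) fun _ => h

end Pool.Agent.Results.MP_13bc1c_ag.QuotientsByGroups
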